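import Mathlib

open MeasureTheory Real

namespace Pool.Agent.Results.MP_cac92d_co.FourFan

/-- A `k`-fan: an apex and `k` distinct rays from it in counterclockwise order.
Ray number `i` points in the direction of angle `ang i`. The labels are continued
periodically: ray `i + k` is ray `i` again, after one full turn. -/
structure Fan (k : ℕ) where
  apex : ℝ × ℝ
  ang : ℕ → ℝ
  ang_lt : ∀ i, ang i < ang (i + 1)
  ang_add : ∀ i, ang (i + k) = ang i + 2 * π

/-- The closed sector swept counterclockwise from ray `i` to ray `i + 1`. -/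
def Fan.sector {k : ℕ} (F : Fan k) (i : ℕ) : Set (ℝ × ℝ) :=
  {z | ∃ r φ : ℝ, 0 ≤ r ∧ F.ang i ≤ φ ∧ φ ≤ F.ang (i + 1) ∧
    z = F.apex + r • (cos φ, sin φ)}

/-- `F` is an `α`-partition of `μ`. -/
def IsPartition {k : ℕ} (F : Fan k) (α : Fin k → ℝ) (μ : Measure (ℝ × ℝ)) : Prop :=
  ∀ i : Fin k, μ.real (F.sector i) = α i

/-- The set `A(k, m)`. -/
def A (k m : ℕ) : Set (Fin k → ℝ) :=
  {α | ∀ μ : Fin m → Measure (ℝ × ℝ), (∀ j, IsProbabilityMeasure (μ j)) →
    (∀ j, μ j ≪ volume) → ∃ F : Fan k, ∀ j, IsPartition F α (μ j)}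

/-! ### polar coordinates -/

lemma polar (p q : ℝ) : ∃ a ψ : ℝ, 0 ≤ a ∧ p = a * cos ψ ∧ q = a * sin ψ := by
  refine ⟨‖(⟨p, q⟩ : ℂ)‖, Complex.arg ⟨p, q⟩, norm_nonneg _, ?_, ?_⟩
  · exact (Complex.norm_mul_cos_arg (⟨p, q⟩ : ℂ)).symm
  · exact (Complex.norm_mul_sin_arg (⟨p, q⟩ : ℂ)).symm

lemma sector_add {k : ℕ} (F : Fan k) (i : ℕ) : F.sector (i + k) = F.sector i := by
  have h1 := F.ang_add i
  have h2 := F.ang_add (i + 1)
  have h3 : i + k + 1 = i + 1 + k := by ring
  ext z
  constructor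
  · rintro ⟨r, φ, hr, ha, hb, rfl⟩
    rw [h3, h2] at hb
    rw [h1] at ha
    refine ⟨r, φ - 2 * π, hr, by linarith, by linarith, ?_⟩
    simp
  · rintro ⟨r, φ, hr, ha, hb, rfl⟩
    refine ⟨r, φ + 2 * π, hr, by rw [h1]; linarith, by rw [h3, h2]; linarith, ?_⟩
    simp

/-- an angle where the cosine is positive is, modulo full turns, near `0` -/
lemma cos_pos_shift {x : ℝ} (h : 0 < cos x) : ∃ n : ℤ, -(π / 2) < x + n * (2 * π) ∧
    x + n * (2 * π) < π / 2 := by
  have hpi := Real.pi_pos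
  obtain ⟨n, hn⟩ : ∃ n : ℤ, x + n * (2 * π) ∈ Set.Ico (-π) (-π + 2 * π) := by
    refine ⟨-toIcoDiv (by positivity : (0:ℝ) < 2 * π) (-π) x, ?_⟩
    have := toIcoMod_mem_Ico (by positivity : (0:ℝ) < 2 * π) (-π) x
    rw [toIcoMod, zsmul_eq_mul] at this
    push_cast
    convert this using 1
    ring
  refine ⟨n, ?_⟩
  have hc : cos (x + n * (2 * π)) = cos x := Real.cos_add_int_mul_two_pi x n
  obtain ⟨h1, h2⟩ := hn
  constructor
  · by_contra hcon
    push Not at hcon
    have : cos (x + n * (2 * π)) ≤ 0 := by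
      rw [← Real.cos_neg]
      exact Real.cos_nonpos_of_pi_div_two_le_of_le (by linarith) (by linarith)
    linarith
  · by_contra hcon
    push Not at hcon
    have : cos (x + n * (2 * π)) ≤ 0 :=
      Real.cos_nonpos_of_pi_div_two_le_of_le (by linarith) (by linarith)
    linarith

/-- arcs -/
lemma arc (θ : ℕ → ℝ) (hθ' : θ 5 = θ 1 + 2 * π)
    (φ : ℕ → ℝ) (h1 : ∀ i < 4, θ i ≤ φ i) (h2 : ∀ i < 4, φ i ≤ θ (i + 1)) (ψ : ℝ)
    (hneg : ∀ i < 4, cos (φ i - ψ) < 0) :
    ∃ m < 4, ∀ χ, 0 < cos (χ - ψ) → ∃ n : ℤ, θ m ≤ χ + n * (2 * π) ∧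
      χ + n * (2 * π) ≤ θ (m + 2) := by
  have hpi := Real.pi_pos
  -- shift ψ
  obtain ⟨N, hN⟩ : ∃ N : ℤ, ψ + N * (2 * π) ∈ Set.Ico (φ 0) (φ 0 + 2 * π) := by
    refine ⟨-toIcoDiv (by positivity : (0:ℝ) < 2 * π) (φ 0) ψ, ?_⟩
    have := toIcoMod_mem_Ico (by positivity : (0:ℝ) < 2 * π) (φ 0) ψ
    rw [toIcoMod, zsmul_eq_mul] at this
    push_cast
    convert this using 1
    ring
  set ψ' := ψ + N * (2 * π) with hψ'
  have hcos : ∀ x, cos (x - ψ) = cos (x - ψ') := by
    intro x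
    have : x - ψ' = x - ψ - N * (2 * π) := by rw [hψ']; ring
    rw [this, Real.cos_sub_int_mul_two_pi]
  have hout : ∀ x, cos (x - ψ) < 0 → x < ψ' - π / 2 ∨ ψ' + π / 2 < x := by
    intro x hx
    by_contra hcon
    push Not at hcon
    rw [hcos] at hx
    have := Real.cos_nonneg_of_neg_pi_div_two_le_of_le (x := x - ψ') (by linarith) (by linarith)
    linarith
  have hlast : cos (φ 0 + 2 * π - ψ) < 0 := by
    have : φ 0 + 2 * π - ψ = φ 0 - ψ + 2 * π := by ring
    rw [this, Real.cos_add_two_pi]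
    exact hneg 0 (by norm_num)
  have hpos : ∀ χ, 0 < cos (χ - ψ) → ∃ n : ℤ, ψ' - π / 2 < χ + n * (2 * π) ∧
      χ + n * (2 * π) < ψ' + π / 2 := by
    intro χ hχ
    rw [hcos] at hχ
    obtain ⟨n, hn1, hn2⟩ := cos_pos_shift hχ
    exact ⟨n, by linarith, by linarith⟩
  have a0 := hout _ (hneg 0 (by norm_num))
  have a1 := hout _ (hneg 1 (by norm_num))
  have a2 := hout _ (hneg 2 (by norm_num))
  have a3 := hout _ (hneg 3 (by norm_num))
  have a4 := hout _ hlast
  have b0 := h1 0 (by norm_num)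
  have b1 := h1 1 (by norm_num)
  have b2 := h1 2 (by norm_num)
  have b3 := h1 3 (by norm_num)
  have c0 := h2 0 (by norm_num)
  have c1 := h2 1 (by norm_num)
  have c2 := h2 2 (by norm_num)
  have c3 := h2 3 (by norm_num)
  norm_num at c0 c1 c2 c3
  obtain ⟨hN1, hN2⟩ := hN
  have a0' : φ 0 < ψ' - π / 2 := by
    rcases a0 with h | h
    · exact h
    · linarith
  have a4' : ψ' + π / 2 < φ 0 + 2 * π := by
    rcases a4 with h | h
    · linarith
    · exact h
  rcases a1 with a1 | a1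
  · rcases a2 with a2 | a2
    · rcases a3 with a3 | a3
      · refine ⟨3, by norm_num, fun χ hχ => ?_⟩
        obtain ⟨n, hn1, hn2⟩ := hpos χ hχ
        refine ⟨n, by linarith, ?_⟩
        norm_num
        linarith
      · refine ⟨2, by norm_num, fun χ hχ => ?_⟩
        obtain ⟨n, hn1, hn2⟩ := hpos χ hχ
        refine ⟨n, by linarith, ?_⟩
        norm_num
        linarith
    · refine ⟨1, by norm_num, fun χ hχ => ?_⟩
      obtain ⟨n, hn1, hn2⟩ := hpos χ hχ
      refine ⟨n, by linarith, ?_⟩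
      norm_num
      linarith
  · refine ⟨0, by norm_num, fun χ hχ => ?_⟩
    obtain ⟨n, hn1, hn2⟩ := hpos χ hχ
    refine ⟨n, by linarith, ?_⟩
    norm_num
    linarith

/-- If a linear functional is smaller than at the apex at some point of each of the four
sectors, then the points where it is larger lie in two neighbouring sectors. -/
lemma two_sectors (F : Fan 4) (p q : ℝ)
    (h : ∀ i < 4, ∃ z ∈ F.sector i, p * z.1 + q * z.2 < p * F.apex.1 + q * F.apex.2) :
    ∃ m < 4, ∀ w : ℝ × ℝ, p * F.apex.1 + q * F.apex.2 < p * w.1 + q * w.2 →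
      w ∈ F.sector m ∪ F.sector (m + 1) := by
  obtain ⟨a, ψ, ha, hp, hq⟩ := polar p q
  have key : ∀ (r φ : ℝ), p * (F.apex + r • (cos φ, sin φ)).1 +
      q * (F.apex + r • (cos φ, sin φ)).2 - (p * F.apex.1 + q * F.apex.2)
      = (a * r) * cos (φ - ψ) := by
    intro r φ
    rw [Real.cos_sub, hp, hq]
    simp
    ring
  choose! z hz hz' using h
  have h' : ∀ i < 4, ∃ φ, F.ang i ≤ φ ∧ φ ≤ F.ang (i + 1) ∧ cos (φ - ψ) < 0 := by
    intro i hi
    obtain ⟨r, φ, hr, h1, h2, h3⟩ := hz i hi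
    refine ⟨φ, h1, h2, ?_⟩
    have := hz' i hi
    rw [h3] at this
    have hk := key r φ
    have har : 0 ≤ a * r := mul_nonneg ha hr
    by_contra hcon
    push Not at hcon
    have := mul_nonneg har hcon
    linarith
  choose! φ hφ1 hφ2 hφ3 using h'
  obtain ⟨m, hm, hm'⟩ := arc F.ang (by simpa using F.ang_add 1)
    φ hφ1 hφ2 ψ hφ3
  refine ⟨m, hm, fun w hw => ?_⟩
  obtain ⟨r, χ, hr, hχ1, hχ2⟩ := polar (w.1 - F.apex.1) (w.2 - F.apex.2)
  have hw' : w = F.apex + r • (cos χ, sin χ) := by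
    ext
    · simp; linarith
    · simp; linarith
  have hk := key r χ
  rw [← hw'] at hk
  have hpos : 0 < (a * r) * cos (χ - ψ) := by linarith
  have hcos : 0 < cos (χ - ψ) := by
    by_contra hcon
    push Not at hcon
    have := mul_nonneg ha hr
    nlinarith
  obtain ⟨n, hn1, hn2⟩ := hm' χ hcos
  have hw'' : w = F.apex + r • (cos (χ + n * (2 * π)), sin (χ + n * (2 * π))) := by
    rw [Real.cos_add_int_mul_two_pi, Real.sin_add_int_mul_two_pi]
    exact hw'
  rcases le_total (χ + n * (2 * π)) (F.ang (m + 1)) with hle | hle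
  · exact Or.inl ⟨r, _, hr, hn1, hle, hw''⟩
  · exact Or.inr ⟨r, _, hr, hle, hn2, hw''⟩

/-- nonnegative combinations of two directions -/
lemma combo {φ φ' χ : ℝ} (h1 : φ ≤ χ) (h2 : χ ≤ φ') (h3 : φ < φ') (h4 : φ' < φ + π) :
    ∃ s t : ℝ, 0 ≤ s ∧ 0 ≤ t ∧ cos χ = s * cos φ + t * cos φ' ∧
      sin χ = s * sin φ + t * sin φ' := by
  have hs : 0 < sin (φ' - φ) := Real.sin_pos_of_pos_of_lt_pi (by linarith) (by linarith)
  refine ⟨sin (φ' - χ) / sin (φ' - φ), sin (χ - φ) / sin (φ' - φ), ?_, ?_, ?_, ?_⟩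
  · exact div_nonneg (Real.sin_nonneg_of_nonneg_of_le_pi (by linarith) (by linarith)) hs.le
  · exact div_nonneg (Real.sin_nonneg_of_nonneg_of_le_pi (by linarith) (by linarith)) hs.le
  · field_simp
    rw [Real.sin_sub, Real.sin_sub, Real.sin_sub]
    ring
  · field_simp
    rw [Real.sin_sub, Real.sin_sub, Real.sin_sub]
    ring

/-- Two points of a convex set missing the apex, in opposite sectors: one of the two other
sectors lies in the convex cone that they span. -/
lemma cone_cases (F : Fan 4) {B : Set (ℝ × ℝ)} (hB : Convex ℝ B) (hx : F.apex ∉ B)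
    {y y' : ℝ × ℝ} (hy : y ∈ B) (hy' : y' ∈ B) (h1 : y ∈ F.sector 1) (h3 : y' ∈ F.sector 3) :
    (∀ z ∈ F.sector 2, ∃ s t : ℝ, 0 ≤ s ∧ 0 ≤ t ∧
      z - F.apex = s • (y - F.apex) + t • (y' - F.apex)) ∨
    (∀ z ∈ F.sector 0, ∃ s t : ℝ, 0 ≤ s ∧ 0 ≤ t ∧
      z - F.apex = s • (y - F.apex) + t • (y' - F.apex)) := by
  obtain ⟨r, φ, hr, ha, hb, hyφ⟩ := h1
  obtain ⟨r', φ', hr', ha', hb', hyφ'⟩ := h3
  have hr0 : 0 < r := by
    rcases hr.lt_or_eq with h | h
    · exact h
    · exfalso; apply hx; rw [← h] at hyφ; simp at hyφ; rw [← hyφ]; exact hy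
  have hr0' : 0 < r' := by
    rcases hr'.lt_or_eq with h | h
    · exact h
    · exfalso; apply hx; rw [← h] at hyφ'; simp at hyφ'; rw [← hyφ']; exact hy'
  have e1 := F.ang_lt 0
  have e2 := F.ang_lt 1
  have e3 := F.ang_lt 2
  have e4 := F.ang_lt 3
  have e5 : F.ang 4 = F.ang 0 + 2 * π := by simpa using F.ang_add 0
  have e6 : F.ang 5 = F.ang 1 + 2 * π := by simpa using F.ang_add 1
  norm_num at e1 e2 e3 e4 hb hb'
  rcases lt_trichotomy (φ' - φ) π with hlt | heq | hgt
  · left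
    rintro z ⟨ρ, χ, hρ, hc1, hc2, rfl⟩
    norm_num at hc2
    obtain ⟨s, t, hs, ht, hc, hsn⟩ := combo (φ := φ) (φ' := φ') (χ := χ) (by linarith)
      (by linarith) (by linarith) (by linarith)
    refine ⟨ρ * s / r, ρ * t / r', by positivity, by positivity, ?_⟩
    rw [hyφ, hyφ']
    ext
    · simp
      rw [hc]
      field_simp
    · simp
      rw [hsn]
      field_simp
  · exfalso
    apply hx
    have hφ' : φ' = φ + π := by linarith
    rw [hφ', Real.cos_add_pi, Real.sin_add_pi] at hyφ'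
    have := hB hy hy' (a := r' / (r + r')) (b := r / (r + r')) (by positivity) (by positivity)
      (by field_simp; ring)
    convert this using 1
    rw [hyφ, hyφ']
    ext
    · simp
      field_simp
      ring
    · simp
      field_simp
      ring
  · right
    rintro z ⟨ρ, χ, hρ, hc1, hc2, rfl⟩
    norm_num at hc2
    obtain ⟨t, s, ht, hs, hc, hsn⟩ := combo (φ := φ') (φ' := φ + 2 * π) (χ := χ + 2 * π)
      (by linarith) (by linarith) (by linarith) (by linarith)
    refine ⟨ρ * s / r, ρ * t / r', by positivity, by positivity, ?_⟩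
    rw [Real.cos_add_two_pi, Real.cos_add_two_pi] at hc
    rw [Real.sin_add_two_pi, Real.sin_add_two_pi] at hsn
    rw [hyφ, hyφ']
    ext
    · simp
      rw [hc]
      field_simp
      ring
    · simp
      rw [hsn]
      field_simp
      ring

/-! ### the measures -/

/-- the uniform distribution on the closed axis-parallel square of centre `p` and side `2 r`
(closed balls of the product metric on the plane are such squares) -/
noncomputable def unif (p : ℝ × ℝ) (r : ℝ) : Measure (ℝ × ℝ) :=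
  ProbabilityTheory.cond volume (Metric.closedBall p r)

lemma unif_prob (p : ℝ × ℝ) {r : ℝ} (hr : 0 < r) : IsProbabilityMeasure (unif p r) := by
  apply ProbabilityTheory.cond_isProbabilityMeasure_of_finite
  · exact (Metric.measure_closedBall_pos volume p hr).ne'
  · exact (isCompact_closedBall p r).measure_lt_top.ne

lemma unif_ac (p : ℝ × ℝ) (r : ℝ) : unif p r ≪ volume :=
  ProbabilityTheory.cond_absolutelyContinuous

lemma unif_apply (p : ℝ × ℝ) (r : ℝ) (s : Set (ℝ × ℝ)) :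
    unif p r s = (volume (Metric.closedBall p r))⁻¹ * volume (Metric.closedBall p r ∩ s) :=
  ProbabilityTheory.cond_apply Metric.isClosed_closedBall.measurableSet _ _

lemma unif_one {p : ℝ × ℝ} {r : ℝ} (hr : 0 < r) {s : Set (ℝ × ℝ)}
    (h : Metric.closedBall p r ⊆ s) : (unif p r).real s = 1 := by
  have h1 : unif p r s = 1 := by
    rw [unif_apply, Set.inter_eq_left.mpr h]
    exact ENNReal.inv_mul_cancel (Metric.measure_closedBall_pos volume p hr).ne'
      (isCompact_closedBall p r).measure_lt_top.ne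
  simp [Measure.real, h1]

lemma unif_nonempty {p : ℝ × ℝ} {r : ℝ} {s : Set (ℝ × ℝ)}
    (h : 0 < (unif p r).real s) : ∃ z ∈ Metric.closedBall p r, z ∈ s := by
  by_contra hcon
  push Not at hcon
  have h1 : Metric.closedBall p r ∩ s = ∅ := by
    ext z
    simp only [Set.mem_inter_iff, Set.mem_empty_iff_false, iff_false, not_and]
    exact hcon z
  have h2 : unif p r s = 0 := by
    rw [unif_apply, h1]
    simp
  simp [Measure.real, h2] at h

lemma slab_meas (α β a c : ℝ) :
    MeasurableSet {z : ℝ × ℝ | z.1 ∈ Set.Icc a (a + 1) ∧ |z.2 - (α + β * z.1)| ≤ c} := by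
  have h1 : MeasurableSet {z : ℝ × ℝ | z.1 ∈ Set.Icc a (a + 1)} :=
    measurableSet_Icc.preimage measurable_fst
  have h2 : IsClosed {z : ℝ × ℝ | |z.2 - (α + β * z.1)| ≤ c} :=
    isClosed_le (f := fun z : ℝ × ℝ => |z.2 - (α + β * z.1)|) (g := fun _ => c)
      (by fun_prop) (by fun_prop)
  exact h1.inter h2.measurableSet

lemma slab_fst (α β a c : ℝ) :
    volume {z : ℝ × ℝ | z.1 ∈ Set.Icc a (a + 1) ∧ |z.2 - (α + β * z.1)| ≤ c} ≤
      ENNReal.ofReal (2 * c) := by
  have hm := slab_meas α β a c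
  rw [Measure.volume_eq_prod, Measure.prod_apply hm]
  calc ∫⁻ x, volume (Prod.mk x ⁻¹' {z : ℝ × ℝ | z.1 ∈ Set.Icc a (a + 1) ∧
          |z.2 - (α + β * z.1)| ≤ c})
      ≤ ∫⁻ x, (Set.Icc a (a + 1)).indicator (fun _ => ENNReal.ofReal (2 * c)) x := by
        apply lintegral_mono
        intro x
        by_cases hx : x ∈ Set.Icc a (a + 1)
        · rw [Set.indicator_of_mem hx]
          calc volume (Prod.mk x ⁻¹' {z : ℝ × ℝ | z.1 ∈ Set.Icc a (a + 1) ∧
                |z.2 - (α + β * z.1)| ≤ c})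
              ≤ volume (Set.Icc (α + β * x - c) (α + β * x + c)) := by
                apply measure_mono
                rintro y ⟨_, hy⟩
                rw [abs_le] at hy
                exact ⟨by linarith [hy.1], by linarith [hy.2]⟩
            _ = ENNReal.ofReal (2 * c) := by
                rw [Real.volume_Icc]
                congr 1
                ring
        · rw [Set.indicator_of_notMem hx]
          have : Prod.mk x ⁻¹' {z : ℝ × ℝ | z.1 ∈ Set.Icc a (a + 1) ∧
              |z.2 - (α + β * z.1)| ≤ c} = ∅ := by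
            ext y
            simp only [Set.mem_preimage, Set.mem_empty_iff_false, iff_false]
            rintro ⟨h, _⟩
            exact hx h
          show volume (Prod.mk x ⁻¹' {z : ℝ × ℝ | z.1 ∈ Set.Icc a (a + 1) ∧
              |z.2 - (α + β * z.1)| ≤ c}) ≤ 0
          rw [this, measure_empty]
    _ = ENNReal.ofReal (2 * c) := by
        rw [lintegral_indicator measurableSet_Icc]
        simp

lemma slab_snd (α β a c : ℝ) :
    volume {z : ℝ × ℝ | z.2 ∈ Set.Icc a (a + 1) ∧ |z.1 - (α + β * z.2)| ≤ c} ≤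
      ENNReal.ofReal (2 * c) := by
  have h := slab_fst α β a c
  have hm := slab_meas α β a c
  have h2 := (Measure.measurePreserving_swap (μ := (volume : Measure ℝ))
    (ν := (volume : Measure ℝ))).measure_preimage hm.nullMeasurableSet
  rw [← Measure.volume_eq_prod] at h2
  rw [← h2] at h
  exact h

/-- the unit square carrying the first measure -/
abbrev S : Set (ℝ × ℝ) := Metric.closedBall ((-7/2 : ℝ), (0 : ℝ)) (1/2)

lemma mem_S {z : ℝ × ℝ} (hz : z ∈ S) : -4 ≤ z.1 ∧ z.1 ≤ -3 ∧ -(1/2) ≤ z.2 ∧ z.2 ≤ 1/2 := by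
  rw [S, ← closedBall_prod_same] at hz
  obtain ⟨h1, h2⟩ := hz
  rw [Metric.mem_closedBall, Real.dist_eq, abs_le] at h1 h2
  refine ⟨?_, ?_, ?_, ?_⟩ <;> linarith [h1.1, h1.2, h2.1, h2.2]

lemma vol_S : volume S = 1 := by
  rw [S, ← closedBall_prod_same, Measure.volume_eq_prod, Measure.prod_prod]
  rw [Real.volume_closedBall, Real.volume_closedBall]
  norm_num

/-- thin strips have small measure -/
lemma thin (x u : ℝ × ℝ) (hu : u ≠ 0) (c : ℝ) :
    volume {z : ℝ × ℝ | z ∈ S ∧ |(z.1 - x.1) * u.2 - (z.2 - x.2) * u.1| ≤ c * ‖u‖} ≤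
      ENNReal.ofReal (2 * c) := by
  rcases le_total |u.2| |u.1| with h | h
  · have hn : ‖u‖ = |u.1| := by
      rw [Prod.norm_def, Real.norm_eq_abs, Real.norm_eq_abs]
      exact max_eq_left h
    have hu1 : u.1 ≠ 0 := by
      intro h0
      apply hu
      rw [h0, abs_zero] at h
      exact Prod.ext h0 (abs_eq_zero.mp (le_antisymm h (abs_nonneg _)))
    have hpos : 0 < |u.1| := abs_pos.mpr hu1
    refine (measure_mono ?_).trans (slab_fst (x.2 - x.1 * (u.2 / u.1)) (u.2 / u.1) (-4) c)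
    rintro z ⟨hz, hz'⟩
    obtain ⟨a1, a2, a3, a4⟩ := mem_S hz
    refine ⟨⟨by linarith, by linarith⟩, ?_⟩
    rw [hn] at hz'
    have e : z.2 - (x.2 - x.1 * (u.2 / u.1) + u.2 / u.1 * z.1) =
        -((z.1 - x.1) * u.2 - (z.2 - x.2) * u.1) / u.1 := by
      field_simp
      ring
    rw [e, abs_div, abs_neg, div_le_iff₀ hpos]
    exact hz'
  · have hn : ‖u‖ = |u.2| := by
      rw [Prod.norm_def, Real.norm_eq_abs, Real.norm_eq_abs]
      exact max_eq_right h
    have hu1 : u.2 ≠ 0 := by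
      intro h0
      apply hu
      rw [h0, abs_zero] at h
      exact Prod.ext (abs_eq_zero.mp (le_antisymm h (abs_nonneg _))) h0
    have hpos : 0 < |u.2| := abs_pos.mpr hu1
    refine (measure_mono ?_).trans (slab_snd (x.1 - x.2 * (u.1 / u.2)) (u.1 / u.2) (-(1/2)) c)
    rintro z ⟨hz, hz'⟩
    obtain ⟨a1, a2, a3, a4⟩ := mem_S hz
    refine ⟨⟨by linarith, by linarith⟩, ?_⟩
    rw [hn] at hz'
    have e : z.1 - (x.1 - x.2 * (u.1 / u.2) + u.1 / u.2 * z.2) =
        ((z.1 - x.1) * u.2 - (z.2 - x.2) * u.1) / u.2 := by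
      field_simp
      ring
    rw [e, abs_div, div_le_iff₀ hpos]
    exact hz'

lemma cross_le (a b : ℝ × ℝ) : |a.1 * b.2 - a.2 * b.1| ≤ 2 * ‖a‖ * ‖b‖ := by
  have h1 : |a.1| ≤ ‖a‖ := norm_fst_le a
  have h2 : |a.2| ≤ ‖a‖ := norm_snd_le a
  have h3 : |b.1| ≤ ‖b‖ := norm_fst_le b
  have h4 : |b.2| ≤ ‖b‖ := norm_snd_le b
  calc |a.1 * b.2 - a.2 * b.1| ≤ |a.1 * b.2| + |a.2 * b.1| := abs_sub _ _
    _ = |a.1| * |b.2| + |a.2| * |b.1| := by rw [abs_mul, abs_mul]
    _ ≤ ‖a‖ * ‖b‖ + ‖a‖ * ‖b‖ := by gcongr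
    _ = 2 * ‖a‖ * ‖b‖ := by ring

/-- the part of the square seen through a small and not too close square is small -/
lemma cone_small (x p y y' : ℝ × ℝ) {ε : ℝ} (hε : 0 < ε) (hε' : ε ≤ 1/20)
    (hx : 1/10 < ‖x - p‖) (hy : y ∈ Metric.closedBall p ε) (hy' : y' ∈ Metric.closedBall p ε)
    (hp : ∀ z ∈ S, ‖z - p‖ ≤ 5) :
    volume {z : ℝ × ℝ | z ∈ S ∧ ∃ s t : ℝ, 0 ≤ s ∧ 0 ≤ t ∧
      z - x = s • (y - x) + t • (y' - x)} ≤ ENNReal.ofReal (2 * (484 * ε)) := by
  have hfar : ∀ w ∈ Metric.closedBall p ε, 1/20 ≤ ‖w - x‖ := by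
    intro w hw
    rw [mem_closedBall_iff_norm] at hw
    have : ‖x - p‖ ≤ ‖w - x‖ + ‖w - p‖ := by
      have h : x - p = (w - p) - (w - x) := by abel
      rw [h]
      calc ‖(w - p) - (w - x)‖ ≤ ‖w - p‖ + ‖w - x‖ := norm_sub_le _ _
        _ = ‖w - x‖ + ‖w - p‖ := add_comm _ _
    linarith
  have hu : y - x ≠ 0 := by
    intro h
    have := hfar y hy
    rw [h, norm_zero] at this
    linarith
  refine (measure_mono ?_).trans (thin x (y - x) hu (484 * ε))
  rintro z ⟨hz, s, t, hs, ht, hst⟩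
  refine ⟨hz, ?_⟩
  have hyy : ‖y' - y‖ ≤ 2 * ε := by
    rw [mem_closedBall_iff_norm] at hy hy'
    have h : y' - y = (y' - p) - (y - p) := by abel
    rw [h]
    linarith [norm_sub_le (y' - p) (y - p)]
  -- bound for t
  have hlam : s + t ≤ 121 := by
    rcases (add_nonneg hs ht).eq_or_lt with h0 | h0
    · rw [← h0]; norm_num
    · set w : ℝ × ℝ := (s / (s + t)) • y + (t / (s + t)) • y' with hw
      have hwB : w ∈ Metric.closedBall p ε :=
        (convex_closedBall p ε) hy hy' (by positivity) (by positivity) (by field_simp)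
      have hzw : z - x = (s + t) • (w - x) := by
        rw [hst, hw]
        ext
        · simp
          field_simp
          ring
        · simp
          field_simp
          ring
      have h1 : ‖z - x‖ = (s + t) * ‖w - x‖ := by
        rw [hzw, norm_smul, Real.norm_eq_abs, abs_of_pos h0]
      have h2 : ‖z - x‖ ≤ ‖z - p‖ + ‖w - p‖ + ‖w - x‖ := by
        have h : z - x = (z - p) - (w - p) + (w - x) := by abel
        rw [h]
        linarith [norm_add_le ((z - p) - (w - p)) (w - x), norm_sub_le (z - p) (w - p)]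
      have h3 := hp z hz
      have h4 : ‖w - p‖ ≤ ε := by rwa [mem_closedBall_iff_norm] at hwB
      have h5 := hfar w hwB
      by_contra hcon
      push Not at hcon
      nlinarith
  have ht' : t ≤ 121 := by linarith
  have e : (z.1 - x.1) * (y - x).2 - (z.2 - x.2) * (y - x).1 =
      t * ((y' - y).1 * (y - x).2 - (y' - y).2 * (y - x).1) := by
    have e1 : z.1 - x.1 = s * (y.1 - x.1) + t * (y'.1 - x.1) := by
      have := congrArg Prod.fst hst
      simpa using this
    have e2 : z.2 - x.2 = s * (y.2 - x.2) + t * (y'.2 - x.2) := by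
      have := congrArg Prod.snd hst
      simpa using this
    rw [e1, e2]
    simp
    ring
  rw [e, abs_mul, abs_of_nonneg ht]
  have hc := cross_le (y' - y) (y - x)
  have hn : 0 ≤ ‖y - x‖ := norm_nonneg _
  calc t * |(y' - y).1 * (y - x).2 - (y' - y).2 * (y - x).1|
      ≤ 121 * (2 * (2 * ε) * ‖y - x‖) := by
        apply mul_le_mul ht' _ (abs_nonneg _) (by norm_num)
        refine hc.trans ?_
        gcongr
    _ = 484 * ε * ‖y - x‖ := by ring

lemma square_bound {p w : ℝ × ℝ} {r : ℝ} (h : w ∈ Metric.closedBall p r) :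
    p.1 - r ≤ w.1 ∧ w.1 ≤ p.1 + r ∧ p.2 - r ≤ w.2 ∧ w.2 ≤ p.2 + r := by
  rw [← Prod.mk.eta (p := p), ← closedBall_prod_same] at h
  obtain ⟨h1, h2⟩ := h
  rw [Metric.mem_closedBall, Real.dist_eq, abs_le] at h1 h2
  refine ⟨?_, ?_, ?_, ?_⟩ <;> linarith [h1.1, h1.2, h2.1, h2.2]

lemma S_dist {z p : ℝ × ℝ} (hz : z ∈ S) (h1 : 0 ≤ p.1) (h2 : p.1 ≤ 1) (h3 : -1 ≤ p.2)
    (h4 : p.2 ≤ 1) : ‖z - p‖ ≤ 5 := by
  obtain ⟨a1, a2, a3, a4⟩ := mem_S hz
  rw [Prod.norm_def, Real.norm_eq_abs, Real.norm_eq_abs]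
  apply max_le <;> rw [abs_le] <;> constructor <;> simp <;> linarith

/-- mass of a part of the plane for the first measure -/
lemma first_mass {s : Set (ℝ × ℝ)} {c : ℝ} (hc : 0 ≤ c) (h : volume (S ∩ s) ≤ ENNReal.ofReal c) :
    (unif ((-7/2 : ℝ), (0 : ℝ)) (1/2)).real s ≤ c := by
  rw [Measure.real, unif_apply, vol_S, inv_one, one_mul]
  exact ENNReal.toReal_le_of_le_ofReal hc h

lemma pigeon {a b c a' b' c' : ℝ} (ha : a ≤ 1) (hb : b ≤ 1) (hc : c ≤ 1) (ha' : a' ≤ 1)
    (hb' : b' ≤ 1) (hc' : c' ≤ 1) (h : 1 < a + b + c) (h' : 1 < a' + b' + c') :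
    (0 < a ∧ 0 < a') ∨ (0 < b ∧ 0 < b') ∨ (0 < c ∧ 0 < c') := by
  by_contra hcon
  push Not at hcon
  obtain ⟨h1, h2, h3⟩ := hcon
  rcases le_or_gt a 0 with x | x <;> rcases le_or_gt b 0 with y | y <;>
    rcases le_or_gt c 0 with z | z
  · linarith
  · linarith
  · linarith
  · linarith [h2 y, h3 z]
  · linarith
  · linarith [h1 x, h3 z]
  · linarith [h1 x, h2 y]
  · linarith [h1 x, h2 y, h3 z]

lemma fail (α : Fin 4 → ℝ) (hpos : ∀ i, 0 < α i) (hsum : ∑ i, α i = 1)
    (h1 : 1/3 < α 1) (h3 : 1/3 < α 3) : α ∉ A 4 2 := by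
  intro hα
  rw [Fin.sum_univ_four] at hsum
  have p0 := hpos 0
  have p1 := hpos 1
  have p2 := hpos 2
  have p3 := hpos 3
  obtain ⟨δ, hδ, hδ0, hδ2⟩ : ∃ δ : ℝ, 0 < δ ∧ δ ≤ α 0 ∧ δ ≤ α 2 :=
    ⟨min (α 0) (α 2), lt_min p0 p2, min_le_left _ _, min_le_right _ _⟩
  set ε : ℝ := δ / 1000 with hεdef
  have hε : 0 < ε := by positivity
  have hδ1 : δ < 1/3 := by linarith
  have hε' : ε ≤ 1/3000 := by rw [hεdef]; linarith
  set P : Fin 3 → ℝ × ℝ := ![(1, -1), (0, 0), (1, 1)] with hP
  set ν : Fin 3 → Measure (ℝ × ℝ) := fun j => unif (P j) ε with hν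
  have hνp : ∀ j, IsProbabilityMeasure (ν j) := fun j => unif_prob _ hε
  set c0 : ℝ × ℝ := ((-7/2 : ℝ), (0 : ℝ)) with hc0
  obtain ⟨F, hF⟩ := hα ![unif c0 (1/2), (3 : ENNReal)⁻¹ • (ν 0 + ν 1 + ν 2)]
    (by
      intro j
      fin_cases j
      · exact unif_prob _ (by norm_num)
      · constructor
        simp only [Fin.mk_one, Matrix.cons_val_one, Matrix.cons_val_fin_one, Measure.smul_apply,
          Measure.add_apply, measure_univ, smul_eq_mul]
        norm_num
        exact ENNReal.inv_mul_cancel (by norm_num) (by norm_num))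
    (by
      intro j
      fin_cases j
      · exact unif_ac _ _
      · show (3 : ENNReal)⁻¹ • (ν 0 + ν 1 + ν 2) ≪ volume
        apply Measure.AbsolutelyContinuous.smul_left
        exact (((unif_ac _ _).add_left (unif_ac _ _)).add_left (unif_ac _ _)))
  have m1 : ∀ i : Fin 4, (unif c0 (1/2)).real (F.sector i) = α i := fun i => hF 0 i
  have m2 : ∀ i : Fin 4, (ν 0).real (F.sector i) + (ν 1).real (F.sector i) +
      (ν 2).real (F.sector i) = 3 * α i := by
    intro i
    have h := hF 1 i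
    simp only [Matrix.cons_val_one, Matrix.cons_val_fin_one] at h
    rw [measureReal_ennreal_smul_apply, measureReal_add_apply, measureReal_add_apply] at h
    rw [← h]
    simp
  have hmeet : ∀ i < 4, ∃ z ∈ S, z ∈ F.sector i := by
    intro i hi
    have h := m1 ⟨i, hi⟩
    exact unif_nonempty (by rw [h]; exact hpos _)
  have le1 : ∀ j s, (ν j).real s ≤ 1 := fun j s => by
    have := hνp j
    exact measureReal_le_one
  have nn : ∀ j s, 0 ≤ (ν j).real s := fun j s => measureReal_nonneg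
  -- a square meeting two opposite sectors
  obtain ⟨j, hj1, hj3⟩ : ∃ j, 0 < (ν j).real (F.sector 1) ∧ 0 < (ν j).real (F.sector 3) := by
    have e1 := m2 1
    have e3 := m2 3
    have v1 : ((1 : Fin 4) : ℕ) = 1 := rfl
    have v3 : ((3 : Fin 4) : ℕ) = 3 := rfl
    rw [v1] at e1
    rw [v3] at e3
    rcases pigeon (le1 0 (F.sector 1)) (le1 1 (F.sector 1)) (le1 2 (F.sector 1))
      (le1 0 (F.sector 3)) (le1 1 (F.sector 3)) (le1 2 (F.sector 3)) (by linarith)
      (by linarith) with h | h | h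
    · exact ⟨0, h⟩
    · exact ⟨1, h⟩
    · exact ⟨2, h⟩
  obtain ⟨y, hyB, hy1⟩ := unif_nonempty hj1
  obtain ⟨y', hyB', hy3⟩ := unif_nonempty hj3
  have hPb : ∀ j, 0 ≤ (P j).1 ∧ (P j).1 ≤ 1 ∧ -1 ≤ (P j).2 ∧ (P j).2 ≤ 1 := by
    intro j
    fin_cases j <;> simp [hP]
  rcases lt_or_ge (1/10) ‖F.apex - P j‖ with hfar | hnear
  · -- far from the square
    have hx : F.apex ∉ Metric.closedBall (P j) ε := by
      rw [mem_closedBall_iff_norm]
      intro h
      linarith
    obtain ⟨q1, q2, q3, q4⟩ := hPb j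
    have small := cone_small F.apex (P j) y y' hε (by linarith) hfar hyB hyB'
      (fun z hz => S_dist hz q1 q2 q3 q4)
    rcases cone_cases F (convex_closedBall _ _) hx hyB hyB' hy1 hy3 with h | h
    · have h2 : volume (S ∩ F.sector 2) ≤ ENNReal.ofReal (2 * (484 * ε)) := by
        refine (measure_mono ?_).trans small
        rintro z ⟨hz1, hz2⟩
        exact ⟨hz1, h z hz2⟩
      have h4 := first_mass (by positivity) h2
      have h5 := m1 2
      have v2 : ((2 : Fin 4) : ℕ) = 2 := rfl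
      rw [v2] at h5
      rw [h5] at h4
      linarith
    · have h2 : volume (S ∩ F.sector 0) ≤ ENNReal.ofReal (2 * (484 * ε)) := by
        refine (measure_mono ?_).trans small
        rintro z ⟨hz1, hz2⟩
        exact ⟨hz1, h z hz2⟩
      have h4 := first_mass (by positivity) h2
      have h5 := m1 0
      have v2 : ((0 : Fin 4) : ℕ) = 0 := rfl
      rw [v2] at h5
      rw [h5] at h4
      linarith
  · -- close to the square
    have hpair : ∀ m < 4, (ν 0).real (F.sector m) + (ν 1).real (F.sector m) +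
        (ν 2).real (F.sector m) + ((ν 0).real (F.sector (m + 1)) +
        (ν 1).real (F.sector (m + 1)) + (ν 2).real (F.sector (m + 1))) < 2 := by
      have e0 := m2 0
      have e1 := m2 1
      have e2 := m2 2
      have e3 := m2 3
      have v0 : ((0 : Fin 4) : ℕ) = 0 := rfl
      have v1 : ((1 : Fin 4) : ℕ) = 1 := rfl
      have v2 : ((2 : Fin 4) : ℕ) = 2 := rfl
      have v3 : ((3 : Fin 4) : ℕ) = 3 := rfl
      rw [v0] at e0
      rw [v1] at e1
      rw [v2] at e2
      rw [v3] at e3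
      have e4 : F.sector 4 = F.sector 0 := by simpa using sector_add F 0
      intro m hm
      interval_cases m
      · norm_num; linarith
      · norm_num; linarith
      · norm_num; linarith
      · norm_num
        rw [e4]
        linarith
    -- two squares beyond a line through the apex
    have close : ∀ (p q : ℝ) (k l : Fin 3), k ≠ l →
        (∀ z ∈ S, p * z.1 + q * z.2 < p * F.apex.1 + q * F.apex.2) →
        (∀ w ∈ Metric.closedBall (P k) ε, p * F.apex.1 + q * F.apex.2 < p * w.1 + q * w.2) →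
        (∀ w ∈ Metric.closedBall (P l) ε, p * F.apex.1 + q * F.apex.2 < p * w.1 + q * w.2) →
        False := by
      intro p q k l hkl hS hk hl
      obtain ⟨m, hm, hm'⟩ := two_sectors F p q (fun i hi => by
        obtain ⟨z, hz, hz'⟩ := hmeet i hi
        exact ⟨z, hz', hS z hz⟩)
      have gk : 1 ≤ (ν k).real (F.sector m) + (ν k).real (F.sector (m + 1)) := by
        have h : (ν k).real (F.sector m ∪ F.sector (m + 1)) = 1 :=
          unif_one hε (fun w hw => hm' w (hk w hw))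
        rw [← h]
        exact measureReal_union_le _ _
      have gl : 1 ≤ (ν l).real (F.sector m) + (ν l).real (F.sector (m + 1)) := by
        have h : (ν l).real (F.sector m ∪ F.sector (m + 1)) = 1 :=
          unif_one hε (fun w hw => hm' w (hl w hw))
        rw [← h]
        exact measureReal_union_le _ _
      have hp := hpair m hm
      have n0 := nn 0 (F.sector m)
      have n1 := nn 1 (F.sector m)
      have n2 := nn 2 (F.sector m)
      have n0' := nn 0 (F.sector (m + 1))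
      have n1' := nn 1 (F.sector (m + 1))
      have n2' := nn 2 (F.sector (m + 1))
      fin_cases k <;> fin_cases l <;> simp at hkl gk gl <;> linarith
    have hxb : F.apex ∈ Metric.closedBall (P j) (1/10) := by
      rw [mem_closedBall_iff_norm]
      exact hnear
    obtain ⟨x1, x2, x3, x4⟩ := square_bound hxb
    fin_cases j
    · simp [hP] at x1 x2 x3 x4
      refine close 1 2 1 2 (by decide) (fun z hz => ?_) (fun w hw => ?_) (fun w hw => ?_)
      · obtain ⟨a1, a2, a3, a4⟩ := mem_S hz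
        linarith
      · obtain ⟨a1, a2, a3, a4⟩ := square_bound hw
        simp [hP] at a1 a2 a3 a4
        linarith
      · obtain ⟨a1, a2, a3, a4⟩ := square_bound hw
        simp [hP] at a1 a2 a3 a4
        linarith
    · simp [hP] at x1 x2 x3 x4
      refine close 1 0 0 2 (by decide) (fun z hz => ?_) (fun w hw => ?_) (fun w hw => ?_)
      · obtain ⟨a1, a2, a3, a4⟩ := mem_S hz
        linarith
      · obtain ⟨a1, a2, a3, a4⟩ := square_bound hw
        simp [hP] at a1 a2 a3 a4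
        linarith
      · obtain ⟨a1, a2, a3, a4⟩ := square_bound hw
        simp [hP] at a1 a2 a3 a4
        linarith
    · simp [hP] at x1 x2 x3 x4
      refine close 1 (-2) 0 1 (by decide) (fun z hz => ?_) (fun w hw => ?_) (fun w hw => ?_)
      · obtain ⟨a1, a2, a3, a4⟩ := mem_S hz
        linarith
      · obtain ⟨a1, a2, a3, a4⟩ := square_bound hw
        simp [hP] at a1 a2 a3 a4
        linarith
      · obtain ⟨a1, a2, a3, a4⟩ := square_bound hw
        simp [hP] at a1 a2 a3 a4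
        linarith

/-- renumbering the rays by one step -/
def Fan.shift (F : Fan 4) : Fan 4 where
  apex := F.apex
  ang := fun i => F.ang (i + 1)
  ang_lt := fun i => F.ang_lt (i + 1)
  ang_add := fun i => by
    have h := F.ang_add (i + 1)
    have e : i + 4 + 1 = i + 1 + 4 := by ring
    rw [e]
    exact h

lemma shift_sector (F : Fan 4) (i : ℕ) : F.shift.sector i = F.sector (i + 1) := rfl

lemma rotate (α : Fin 4 → ℝ) (h : α ∈ A 4 2) : (fun i => α (i + 1)) ∈ A 4 2 := by
  intro μ hp hac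
  obtain ⟨F, hF⟩ := h μ hp hac
  refine ⟨F.shift, fun j i => ?_⟩
  rw [shift_sector]
  have e : F.sector 4 = F.sector 0 := by simpa using sector_add F 0
  have h0 := hF j 0
  have h1 := hF j 1
  have h2 := hF j 2
  have h3 := hF j 3
  fin_cases i
  · exact h1
  · exact h2
  · exact h3
  · show (μ j).real (F.sector 4) = α 0
    rw [e]
    exact h0

/-- **Main result.** The set `A(4, 2)` is not the set of all positive vectors of sum `1`; it
contains no vector in which two opposite entries both exceed `1/3`. -/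
theorem result :
    A 4 2 ≠ {α : Fin 4 → ℝ | (∀ i, 0 < α i) ∧ ∑ i, α i = 1} ∧
    ∀ α : Fin 4 → ℝ, (∀ i, 0 < α i) → ∑ i, α i = 1 →
      ((1 / 3 < α 0 ∧ 1 / 3 < α 2) ∨ (1 / 3 < α 1 ∧ 1 / 3 < α 3)) → α ∉ A 4 2 := by
  have main : ∀ α : Fin 4 → ℝ, (∀ i, 0 < α i) → ∑ i, α i = 1 →
      ((1 / 3 < α 0 ∧ 1 / 3 < α 2) ∨ (1 / 3 < α 1 ∧ 1 / 3 < α 3)) → α ∉ A 4 2 := by
    rintro α hpos hsum (⟨h0, h2⟩ | ⟨h1, h3⟩)
    · intro hα
      refine fail (fun i => α (i + 1)) (fun i => hpos _) ?_ h2 h0 (rotate α hα)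
      rw [Fin.sum_univ_four] at hsum ⊢
      show α 1 + α 2 + α 3 + α 0 = 1
      linarith
    · exact fail α hpos hsum h1 h3
  refine ⟨fun heq => ?_, main⟩
  have hmem : (![1/8, 3/8, 1/8, 3/8] : Fin 4 → ℝ) ∈
      {α : Fin 4 → ℝ | (∀ i, 0 < α i) ∧ ∑ i, α i = 1} := by
    refine ⟨fun i => ?_, ?_⟩
    · fin_cases i <;> simp
    · simp [Fin.sum_univ_four]
      norm_num
  have h := heq ▸ hmem
  refine main _ hmem.1 hmem.2 (Or.inr ⟨?_, ?_⟩) h
  · simp
    norm_num
  · simp
    norm_num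

end Pool.Agent.Results.MP_cac92d_co.FourFan
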